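import Pool.Agent.H26.AR1

set_option autoImplicit false

namespace Pool.Agent.Results.MP_a29a94_pr.LiouvilleNotAR

open MeasureTheory Filter Topology Finset Pool.Agent.H26.AR

def AR {G : Type} [Group G] (μ : PMF G) : Prop :=
  letI : MeasurableSpace G := ⊤
  ∀ n, 1 ≤ n → ∀ᵐ ζ ∂(Measure.infinitePi fun _ : ℕ => μ.toMeasure),
    Subsemigroup.closure (Set.range fun k => ((List.range (n + k)).map ζ).prod) = ⊤

def Liouville {G : Type} [Group G] (μ : PMF G) : Prop :=
  ∀ f : G → ℝ, (∃ R, ∀ g, |f g| ≤ R) → (∀ g, f g = ∑' h, (μ h).toReal * f (g * h)) →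
    ∀ x y, f x = f y

lemma hs {G : Type} (μ : PMF G) : HasSum (fun h => (μ h).toReal) 1 := by
  have := ENNReal.hasSum_toReal (f := μ) (by rw [μ.tsum_coe]; simp)
  rwa [← ENNReal.tsum_toReal_eq μ.apply_ne_top, μ.tsum_coe] at this

lemma cd {G : Type} [CommGroup G] (μ : PMF G) (hsym : ∀ g, μ g⁻¹ = μ g)
    (hgen : Subgroup.closure μ.support = ⊤) : Liouville μ := by
  rintro f ⟨R, hR⟩ hf
  have sm : ∀ g, Summable fun h => (μ h).toReal * f (g * h) := fun g =>
    Summable.of_norm_bounded ((hs μ).summable.mul_right R) fun h => by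
      rw [Real.norm_eq_abs, abs_mul, abs_of_nonneg ENNReal.toReal_nonneg]
      exact mul_le_mul_of_nonneg_left (hR _) ENNReal.toReal_nonneg
  have key : ∀ u ∈ μ.support, ∀ g, f (u * g) ≤ f g := by
    intro u hu
    have hb : BddAbove (Set.range fun g => f (u * g) - f g) := ⟨2 * R, by
      rintro _ ⟨g, rfl⟩
      have := abs_le.mp (hR g)
      have := abs_le.mp (hR (u * g))
      simp only
      linarith⟩
    set m := ⨆ g, (f (u * g) - f g)
    have hle : ∀ g, f (u * g) - f g ≤ m := fun g => le_ciSup hb g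
    have hp : 0 < (μ u).toReal := ENNReal.toReal_pos hu (μ.apply_ne_top u)
    have hp1 : (μ u).toReal ≤ 1 := ENNReal.toReal_le_of_le_ofReal one_pos.le (by
      simpa using μ.coe_le_one u)
    have hm : m ≤ 0 := by
      refine tele f R hR u m (μ u).toReal⁻¹ (one_le_inv₀ hp |>.mpr hp1) (fun g => ?_) fun ε hε => ?_
      · have h1 := (((hs μ).mul_right m).sub ((hf (u * g) ▸ (sm (u * g)).hasSum).sub
          (hf g ▸ (sm g).hasSum)))
        have h2 := le_hasSum h1 u fun h _ => by
          have := mul_le_mul_of_nonneg_left (hle (g * h)) (ENNReal.toReal_nonneg (a := μ h))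
          rw [mul_assoc]
          linarith
        rw [le_inv_mul_iff₀ hp, ← mul_assoc]
        linarith
      · obtain ⟨g, hg⟩ := exists_lt_of_lt_ciSup (show m - ε < m by linarith)
        exact ⟨g, mul_comm _ _, by linarith⟩
    intro g
    linarith [hle g]
  have k2 : ∀ u ∈ Subgroup.closure μ.support, ∀ g, f (u * g) = f g := by
    intro u hu
    induction hu using Subgroup.closure_induction with
    | mem u hu =>
      intro g
      have := key u⁻¹ (by rwa [PMF.mem_support_iff, hsym]) (u * g)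
      rw [inv_mul_cancel_left] at this
      exact le_antisymm (key u hu g) this
    | one => simp
    | mul x y _ _ hx hy => intro g; rw [mul_assoc, hx, hy]
    | inv x _ hx => intro g; rw [← hx (x⁻¹ * g), mul_inv_cancel_left]
  intro x y
  simpa using k2 (x * y⁻¹) (hgen ▸ trivial) y

theorem result : ∃ (G : Type) (_ : Group G) (_ : Countable G) (μ : PMF G),
    (∀ g, μ g⁻¹ = μ g) ∧ Subgroup.closure μ.support = ⊤ ∧ Liouville μ ∧ ¬ AR μ := by
  let φ : ℕ × Bool → G0 := fun x => Multiplicative.ofAdd (Finsupp.single x.1 (sg x.2))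
  have h1 := (tail 2 two_pos).symm φ fun k b => by simp [φ, sg_not]
  have h2 : Subgroup.closure ((tail 2 two_pos).nu.map φ).support = ⊤ :=
    gen_G0 _ fun k => Subgroup.subset_closure (by rw [Tail.supp]; exact ⟨(k, true), rfl⟩)
  refine ⟨G0, inferInstance, inferInstanceAs (Countable (ℕ →₀ ℤ)), _, h1, h2, cd _ h1 h2, fun h => ?_⟩
  letI : MeasurableSpace G0 := ⊤
  exact notAR0 φ (MonoidHom.id _) (fun _ => rfl) (h 1 le_rfl)

end Pool.Agent.Results.MP_a29a94_pr.LiouvilleNotAR
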